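import Pool.Agent.H207.TP.Stm

/-!
# Task WRV of project TP (helper207): the Wronskian of the reversed polynomial
-/

set_option autoImplicit false

open Polynomial Pool.Agent.H792R2.CE Pool.Agent.H207.TP

namespace Pool.Agent.H721.TP207

theorem coeff_X_mul_derivative (Q : ℂ[X]) (i : ℕ) :
    (X * derivative Q).coeff i = i * Q.coeff i := by
  cases i with
  | zero => simp
  | succ j =>
    rw [coeff_X_mul, coeff_derivative]
    push_cast
    ring

theorem key (d : ℕ) (G : ℂ[X]) (hd : 1 ≤ d) (hG : G.natDegree ≤ d) :
    C (d : ℂ) * G.reflect d - X * derivative (G.reflect d) =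
      (derivative G).reflect (d - 1) := by
  ext i
  rw [coeff_sub, coeff_C_mul, coeff_X_mul_derivative, coeff_reflect, coeff_reflect,
    coeff_derivative]
  rcases Nat.lt_or_ge i d with h | h
  · rw [revAt_le h.le, revAt_le (by omega : i ≤ d - 1)]
    have h1 : d - 1 - i + 1 = d - i := by omega
    have h2 : ((d - 1 - i : ℕ) : ℂ) + 1 = (d : ℂ) - i := by
      have h3 : ((d - 1 - i + 1 : ℕ) : ℂ) = ((d - i : ℕ) : ℂ) := by rw [h1]
      rw [Nat.cast_sub h.le] at h3
      rw [← h3]
      push_cast
      ring
    rw [h1, h2]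
    ring
  · have h0 : G.coeff (i + 1) = 0 := coeff_eq_zero_of_natDegree_lt (by omega)
    rw [revAt_eq_self_of_lt (by omega : d - 1 < i), h0, zero_mul]
    rcases Nat.eq_or_lt_of_le h with h1 | h1
    · rw [h1]
      ring
    · rw [revAt_eq_self_of_lt h1, coeff_eq_zero_of_natDegree_lt (by omega : G.natDegree < i)]
      ring

theorem t_WRV : Pool.Agent.H207.TP.S_WRV := by
  intro d b T hd hT
  have hG : ((T - C b).comp (X + C b)).natDegree ≤ d := by
    refine (natDegree_comp_le).trans ?_
    rw [natDegree_X_add_C, mul_one]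
    exact (natDegree_sub_le _ _).trans (by rw [natDegree_C]; simpa using hT)
  have h1 := key d _ hd hG
  have h2 : derivative ((T - C b).comp (X + C b)) = (derivative T).comp (X + C b) := by
    rw [derivative_comp, derivative_sub, derivative_C, sub_zero, derivative_add, derivative_X,
      derivative_C, add_zero, one_mul]
  rw [h2] at h1
  unfold wr DQ rev
  rw [← h1, derivative_X_pow]
  have h3 : (X : ℂ[X]) ^ d = X ^ (d - 1) * X := by
    rw [← pow_succ]
    congr 1
    omega
  rw [h3]
  ring

end Pool.Agent.H721.TP207
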